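import Pool.Agent.V11205.AExp.NonVan

/-!
# The discriminant exponent `p(n, d)` is one for all `n ≥ 2`, `d ≥ 3`

The definitions of `Mon`, `frm`, `Nondeg`, `hess`, `jacobianIdeal`, `IsDiscriminant` are in
`Pool.Agent.V1148.AFDefs`, those of `IsMu`, `PolyPow` in `Pool.Agent.V11205.AExp.Core`.
-/

set_option autoImplicit false

open MvPolynomial Pool.V1148.AF Pool.V11205.AExp

namespace Pool.Agent.Results.MP_ee1e03_al.ExponentIsOne

/-- `p = p(n, d)`, computed with the discriminant `Δ`: for each exponent vector `i` of degree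
`n (d - 2)` the integer `q i` is the smallest integer `k` for which `Δ ^ k μ_i` is a polynomial
function on the space of forms, and `p` is the maximum of the `q i`. -/
def IsExponent (n d : ℕ) (Δ : MvPolynomial (Mon n d) ℂ) (p : ℤ) : Prop :=
  ∃ q : Mon n (n * (d - 2)) → ℤ,
    (∀ i, IsLeast {k : ℤ | PolyPow n d Δ i.1 k} (q i)) ∧ IsGreatest (Set.range q) p

/-- **`p(n, d) = 1` for all `n ≥ 2` and `d ≥ 3`.** The discriminant exists; for every nondegenerate
form the numbers `μ_i` exist and are unique; and for the discriminant `Δ` the smallest integer `k`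
for which `Δ ^ k μ_i` is a polynomial function is `1` for each single `i`, so that their maximum
`p(n, d)` is defined and equal to `1`. -/
theorem result : ∀ n d : ℕ, 2 ≤ n → 3 ≤ d →
    (∃ Δ, IsDiscriminant n d Δ) ∧
    (∀ a : Mon n d → ℂ, Nondeg (frm a) → ∀ i : Mon n (n * (d - 2)), ∃! c, IsMu (frm a) i.1 c) ∧
    ∀ Δ, IsDiscriminant n d Δ →
      (∀ i : Mon n (n * (d - 2)), IsLeast {k : ℤ | PolyPow n d Δ i.1 k} 1) ∧
      ∀ p : ℤ, IsExponent n d Δ p ↔ p = 1 := by
  intro n d hn hd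
  refine ⟨?_, fun a ha i => existsUnique_mu (by omega) a ha i, ?_⟩
  · obtain ⟨m, rfl⟩ : ∃ m, n = m + 1 := ⟨n - 1, by omega⟩
    exact exists_discriminant hd (by omega)
  · intro Δ hΔ
    have h1 : ∀ i : Mon n (n * (d - 2)), IsLeast {k : ℤ | PolyPow n d Δ i.1 k} 1 := fun i =>
      ⟨polyPow_one hn hd Δ hΔ i, fun k hk => one_le_of_polyPow hn hd Δ hΔ i k hk⟩
    refine ⟨h1, fun p => ⟨?_, ?_⟩⟩
    · rintro ⟨q, hq, ⟨i, rfl⟩, -⟩
      exact (hq i).unique (h1 i)
    · rintro rfl
      refine ⟨fun _ => 1, h1, ⟨bstar n d, rfl⟩, ?_⟩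
      rintro _ ⟨i, rfl⟩
      exact le_refl _

end Pool.Agent.Results.MP_ee1e03_al.ExponentIsOne
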